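import Mathlib
import Pool.Agent.H14.SpecDefs
import Pool.Agent.H14.SpecMain

namespace Pool.Agent.Results.MP_8481ed_ag.NotStable

open H14.Spec

/-- Over every algebraically closed field there are 19 distinct points of the projective plane
(on a cuspidal quartic) such that `D = 5H - E₁ - ⋯ - E₁₉` is special on the blow-up, while `nD` is
effective but not special for every `n ≥ 5`. -/
theorem result (k : Type*) [Field k] [IsAlgClosed k] :
    ∃ P : Fin 19 → Fin 3 → k, DistinctPoints P ∧ IsSpecial P 5 (fun _ => 1) ∧
      ∀ n : ℕ, 5 ≤ n → 0 < h0 P (n * 5) (fun _ => n * 1) ∧ h1 P (n * 5) (fun _ => n * 1) ≤ 0 ∧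
        ¬ IsSpecial P (n * 5) (fun _ => n * 1) := by
  have : Infinite k := IsAlgClosed.instInfinite
  exact H14.Spec.main k

end Pool.Agent.Results.MP_8481ed_ag.NotStable
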